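import Pool.Agent.H896.GN.Stmt

/-!
# Entire curves in cyclic coverings of complete intersections in isometry quotients

See `Pool.Agent.H896.IQ.Stmt` and `Pool.Agent.H896.IR.Stmt` for the groups, the line bundles, the divisors
and the classes, and `Pool.Agent.H896.GN.Stmt` for roots of line bundles.

Let `D_i`, `i < N`, be effective Cartier divisors on `X = (V × F) / Γ`, given by sections `β i`, and let
natural numbers `q i` be given, different from `1`. Let `Z ⊆ X` be the intersection of the `D_i` with
`q i = 0`. For the `i` with `q i ≥ 2` let line bundles `R i` with `(R i) ^ (q i) = D_i` be given, and let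
`Y → Z` be the fibre product of the cyclic coverings `y_i ^ (q i) = β i` of `Z`. So `Y` is a closed
subspace of the total space of the sum of these `R i`, and it is compact. (If all `q i` are `0` then `Y = Z`;
if none of them is `0` then `Z = X`.) If `Γ` acts without fixed points on `V × F` and the `D_i` are smooth and
cross normally then `Y` is a compact Kähler manifold, projective if `X` is projective, and `K_Y` is the
pullback of `K_X + ∑ D_i + ∑ (1 - 1 / q i) D_i`, the first sum over the `i` with `q i = 0`, the second one
over the other `i`. In Lean `1 / 0 = 0`, so that this is `K_X + ∑ (1 - 1 / q i) D_i`, all `i`.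
-/

set_option autoImplicit false

namespace Pool.Agent.H896.IG

open MvPolynomial Pool.Agent.T2H08.FB

variable {n c : ℕ} {r : Fin c → ℕ} {Γ : Subgroup (Trans n r)} {N : ℕ}

/-- `(v, z, y)` satisfies the equations of `Y`. (It gives a point of `Y` if also `IsPt z`. The coordinates
`y i` with `q i = 0` are of no importance, and put equal to `0`.) -/
def OnCover (q : Fin N → ℕ) (β : Fin N → (Fin n → ℂ) → MvPolynomial (Co r) ℂ)
    (v : Fin n → ℂ) (z : Co r → ℂ) (y : Fin N → ℂ) : Prop :=
  ∀ i, (q i ≠ 0 → y i ^ q i = eval z (β i v)) ∧ (q i = 0 → eval z (β i v) = 0 ∧ y i = 0)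

/-- The entire functions `a`, `b`, `y` define a nonconstant holomorphic map `f : ℂ → Y`: here `f (t)` is the
point of `Y` given by `(a (t), b (t), y (t))`. At isolated `t` the homogeneous coordinates `b (t)` of the
factors of `F` may have common zeros, and `f` is the holomorphic extension: if the coordinates of the
`j`-th factor are divided by `(t - t₀) ^ e` and the `y i` by `(t - t₀) ^ (e * (R i).deg j)`, these are still
holomorphic functions, by the equations of `Y`, and give the same points. The map `f` is not constant,
because two of its values come from different points of the space which is `Y` for the trivial group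
(the covering of `Y`, on which `Γ` acts properly discontinuously), and so `f` has uncountably many values. -/
structure IsEntireCurve (R : Fin N → LineBundle Γ) (q : Fin N → ℕ)
    (β : Fin N → (Fin n → ℂ) → MvPolynomial (Co r) ℂ)
    (a : ℂ → Fin n → ℂ) (b : ℂ → Co r → ℂ) (y : ℂ → Fin N → ℂ) : Prop where
  holo_a : Differentiable ℂ a
  holo_b : Differentiable ℂ b
  holo_y : Differentiable ℂ y
  on : ∀ t, OnCover q β (a t) (b t) (y t)
  nonconst : ∃ s t, IsPt (b s) ∧ IsPt (b t) ∧ ¬ (a t = a s ∧ ∃ μ : Fin c → ℂˣ, b t = mulBy μ (b s) ∧
    ∀ i, q i ≠ 0 → y t i = (∏ j, (μ j : ℂ) ^ (R i).deg j) * y s i)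

/-- The class `(H, δ)` is positive (ample, Kähler): the form `H` is positive definite and the degrees `δ j`
are positive. -/
def IsPositiveClass (x : RealClass n c) : Prop :=
  (∀ v, v ≠ 0 → 0 < (x.1 v v).re) ∧ ∀ j, 0 < x.2 j

/-- The condition for a factor `P^{r j}` of `F` on which `K_Y` has a degree `δ ≤ 0`: none of the `D_i` meets
the factor properly (all degrees are `0`); or one of the coverings is ramified along the factor (`R i` has
positive degree), and in the case `δ = 0` its order `q i` is divisible by `3`, or by `4`, or it is even
and the degree of `R i` is at least `2`. -/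
def FactorCondition (D R : Fin N → LineBundle Γ) (q : Fin N → ℕ) (δ : ℝ) (j : Fin c) : Prop :=
  (∀ i, (D i).deg j = 0) ∨ ∃ i, q i ≠ 0 ∧ 1 ≤ (R i).deg j ∧
    (δ < 0 ∨ 3 ∣ q i ∨ 4 ∣ q i ∨ (2 ∣ q i ∧ 2 ≤ (R i).deg j))

end Pool.Agent.H896.IG
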