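import Pool.Agent.H896.KB.Sub
import Pool.Agent.H896.KB.Stmt

/-!
# Entire curves in the fibres
-/

set_option autoImplicit false

namespace Pool.Agent.H896.IG

open MvPolynomial Pool.Agent.T2H08.FB
open Pool.Agent.T2H08 Pool.Agent.Helper568.GC

variable {n c : ℕ} {r : Fin c → ℕ} {Γ : Subgroup (Trans n r)} {N : ℕ}

section data

variable (j : Fin c) (z : Co r → ℂ) (q : Fin N → ℕ) (e : Fin N → ℕ) (i0 : Fin N)
  (B : Fin N → MvPolynomial (Co r) ℂ) (κ : Fin N → ℕ)

/-- weights of the coordinates `y` -/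
def wy : Fin N → ℕ := fun i => if q i = 0 then 0 else e i

/-- the equations of the coverings -/
noncomputable def G1 : Fin N → MvPolynomial (Fin (r j + 1 + N)) ℂ := fun i =>
  if q i = 0 ∨ i = i0 then X (Fin.natAdd (r j + 1) i)
  else X (Fin.natAdd (r j + 1) i) ^ q i - aeval (sbst N j z) (B i)

/-- the equations of the complete intersection -/
noncomputable def G2 : Fin N → MvPolynomial (Fin (r j + 1 + N)) ℂ := fun i =>
  if q i = 0 then aeval (sbst N j z) (B i) else 0

/-- degrees -/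
def d1 : Fin N → ℕ := fun i => if q i = 0 ∨ i = i0 then wy q e i else q i * e i

/-- degrees -/
def d2 : Fin N → ℕ := fun i => if q i = 0 then κ i else 0

end data

variable {j : Fin c} {z : Co r → ℂ} {q : Fin N → ℕ} {e : Fin N → ℕ} {i0 : Fin N}
  {B : Fin N → MvPolynomial (Co r) ℂ} {κ : Fin N → Fin c → ℕ}

theorem wh_G1 (hB : ∀ i, FQ.IsHomog (κ i) (B i)) (hκ : ∀ i, q i ≠ 0 → κ i j = q i * e i) (i : Fin N) :
    IsWeightedHomogeneous (wgt (r := r) N j (wy q e)) (G1 j z q i0 B i) (d1 q e i0 i) := by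
  have hX : IsWeightedHomogeneous (wgt (r := r) N j (wy q e))
      (X (Fin.natAdd (r j + 1) i) : MvPolynomial (Fin (r j + 1 + N)) ℂ) (wy q e i) := by
    have h := isWeightedHomogeneous_X ℂ (wgt (r := r) N j (wy q e)) (Fin.natAdd (r j + 1) i)
    have h2 : wgt (r := r) N j (wy q e) (Fin.natAdd (r j + 1) i) = wy q e i := by
      unfold wgt
      rw [Fin.append_right]
    rwa [h2] at h
  unfold G1 d1
  by_cases h : q i = 0 ∨ i = i0
  · rw [if_pos h, if_pos h]
    exact hX
  · rw [if_neg h, if_neg h]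
    push Not at h
    have h1 := hX.pow (q i)
    have h2 : wy q e i = e i := by
      unfold wy
      rw [if_neg h.1]
    rw [h2, smul_eq_mul] at h1
    have h3 := wh_sbst (hB i) j z (wy q e)
    rw [hκ i h.1] at h3
    exact h1.sub h3

theorem wh_G2 (hB : ∀ i, FQ.IsHomog (κ i) (B i)) (i : Fin N) :
    IsWeightedHomogeneous (wgt (r := r) N j (wy q e)) (G2 j z q B i)
      (d2 q (fun i => κ i j) i) := by
  unfold G2 d2
  by_cases h : q i = 0
  · rw [if_pos h, if_pos h]
    exact wh_sbst (hB i) j z _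
  · rw [if_neg h, if_neg h]
    exact isWeightedHomogeneous_zero _ _ _

/-- the number of conditions -/
theorem count (hκ : ∀ i, q i ≠ 0 → κ i j = q i * e i) (hi0 : q i0 ≠ 0) :
    ((∑ i, d1 q e i0 i + ∑ i, d2 q (fun i => κ i j) i + (q i0 - 1) * e i0 : ℕ) : ℝ) =
      ∑ i, (wy q e i : ℝ) + ∑ i, (1 - 1 / (q i : ℝ)) * κ i j := by
  classical
  have h1 : ((q i0 - 1) * e i0 : ℕ) = ∑ i, if i = i0 then (q i - 1) * e i else 0 := by
    rw [Finset.sum_ite_eq' Finset.univ i0 fun i => (q i - 1) * e i, if_pos (Finset.mem_univ _)]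
  rw [h1]
  push_cast
  rw [← Finset.sum_add_distrib, ← Finset.sum_add_distrib, ← Finset.sum_add_distrib]
  refine Finset.sum_congr rfl fun i _ => ?_
  unfold d1 d2 wy
  by_cases h : q i = 0
  · have hne : i ≠ i0 := fun h' => hi0 (h' ▸ h)
    rw [if_pos (Or.inl h), if_pos h, if_pos h, if_neg hne, h]
    simp
  · have hq : (q i : ℝ) ≠ 0 := by exact_mod_cast h
    have hq1 : 1 ≤ q i := Nat.one_le_iff_ne_zero.2 h
    by_cases h' : i = i0
    · rw [if_pos (Or.inr h'), if_neg h, if_neg h, if_pos h', hκ i h]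
      push_cast [Nat.cast_sub hq1]
      field_simp
      ring
    · rw [if_neg (by tauto), if_neg h, if_neg h, if_neg h', hκ i h]
      push_cast
      field_simp
      ring


variable {D R : Fin N → LineBundle Γ} {β : Fin N → (Fin n → ℂ) → MvPolynomial (Co r) ℂ}
  {v : Fin n → ℂ} {y : Fin N → ℂ}

theorem root_deg (hβ : ∀ i, IsCartier (D i) (β i) (κ i))
    (hR : ∀ i, q i ≠ 0 → IsRoot (R i) (q i) (D i)) (j : Fin c) {i : Fin N} (hi : q i ≠ 0) :
    (((R i).deg j).toNat : ℤ) = (R i).deg j ∧ κ i j = q i * ((R i).deg j).toNat := by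
  have h1 := (hR i hi).1 j
  rw [(hβ i).deg j] at h1
  have hq : (0 : ℤ) < q i := by
    have := Nat.pos_of_ne_zero hi
    exact_mod_cast this
  have h2 : 0 ≤ (R i).deg j := by
    by_contra hcon
    push Not at hcon
    have h3 := mul_neg_of_pos_of_neg hq hcon
    have h4 : (0 : ℤ) ≤ κ i j := Int.natCast_nonneg _
    omega
  have h3 : (((R i).deg j).toNat : ℤ) = (R i).deg j := Int.toNat_of_nonneg h2
  refine ⟨h3, ?_⟩
  have h4 : (κ i j : ℤ) = (q i * ((R i).deg j).toNat : ℕ) := by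
    push_cast
    rw [h3, h1]
  exact_mod_cast h4

/-- **Entire curves in the fibres.** -/
theorem curve_fibre (hβ : ∀ i, IsCartier (D i) (β i) (κ i))
    (hR : ∀ i, q i ≠ 0 → IsRoot (R i) (q i) (D i)) (hz : IsPt z)
    (hy : OnCover q β v z y) {i0 : Fin N} (hq0 : 2 ≤ q i0) (hy0 : y i0 ≠ 0)
    (hdeg : 1 ≤ (R i0).deg j) (hδ : ∑ i, (1 - 1 / (q i : ℝ)) * κ i j ≤ r j + 1)
    (hkind : ∑ i, (1 - 1 / (q i : ℝ)) * κ i j < r j + 1 ∨
      3 ∣ q i0 ∨ 4 ∣ q i0 ∨ (2 ∣ q i0 ∧ 2 ≤ (R i0).deg j)) :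
    ∃ a b y', IsEntireCurve R q β a b y' := by
  classical
  have hi0 : q i0 ≠ 0 := by omega
  obtain ⟨e, he⟩ : ∃ e : Fin N → ℕ, ∀ i, e i = ((R i).deg j).toNat := ⟨_, fun _ => rfl⟩
  have hκ : ∀ i, q i ≠ 0 → κ i j = q i * e i := fun i hi => by
    rw [he]
    exact (root_deg hβ hR j hi).2
  have heZ : ∀ i, q i ≠ 0 → (e i : ℤ) = (R i).deg j := fun i hi => by
    rw [he]
    exact (root_deg hβ hR j hi).1
  obtain ⟨B, hBdef⟩ : ∃ B : Fin N → MvPolynomial (Co r) ℂ, ∀ i, B i = β i v := ⟨_, fun _ => rfl⟩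
  have hB : ∀ i, FQ.IsHomog (κ i) (B i) := fun i => by
    rw [hBdef]
    exact (eff_conv (hβ i).effective).homog v
  obtain ⟨G, hG⟩ : ∃ G : Fin (N + N) → MvPolynomial (Fin (r j + 1 + N)) ℂ,
    G = Fin.append (G1 j z q i0 B) (G2 j z q B) := ⟨_, rfl⟩
  obtain ⟨d, hd⟩ : ∃ d : Fin (N + N) → ℕ,
    d = Fin.append (d1 q e i0) (d2 q fun i => κ i j) := ⟨_, rfl⟩
  have hGw : ∀ i, IsWeightedHomogeneous (wgt (r := r) N j (wy q e)) (G i) (d i) := by
    intro i
    rw [hG, hd]
    refine Fin.addCases (fun i => ?_) (fun i => ?_) i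
    · rw [Fin.append_left, Fin.append_left]
      exact wh_G1 hB hκ i
    · rw [Fin.append_right, Fin.append_right]
      exact wh_G2 hB i
  obtain ⟨P, hP⟩ : ∃ P : MvPolynomial (Fin (r j + 1 + N)) ℂ, P = aeval (sbst N j z) (B i0) :=
    ⟨_, rfl⟩
  have hPw : IsWeightedHomogeneous (wgt (r := r) N j (wy q e)) P (q i0 * e i0) := by
    rw [hP, ← hκ i0 hi0]
    exact wh_sbst (hB i0) j z _
  -- the point
  obtain ⟨x, hx⟩ : ∃ x : Fin (r j + 1 + N) → ℂ, x = Fin.append (fun a => z ⟨j, a⟩)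
    (fun i => if q i = 0 ∨ i = i0 then 0 else y i) := ⟨_, rfl⟩
  have hxl : ∀ a, x (Fin.castAdd N a) = z ⟨j, a⟩ := fun a => by rw [hx, Fin.append_left]
  have hxr : ∀ i, x (Fin.natAdd (r j + 1) i) = if q i = 0 ∨ i = i0 then 0 else y i := fun i => by
    rw [hx, Fin.append_right]
  have hblk : blk N j z x = z := blk_self j z x hxl
  have hxG : ∀ i, eval x (G i) = 0 := by
    intro i
    rw [hG]
    refine Fin.addCases (fun i => ?_) (fun i => ?_) i
    · rw [Fin.append_left]
      unfold G1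
      by_cases h : q i = 0 ∨ i = i0
      · rw [if_pos h, eval_X, hxr, if_pos h]
      · rw [if_neg h, map_sub, map_pow, eval_X, hxr, if_neg h, eval_sbst, hblk, hBdef,
          (hy i).1 (fun h' => h (Or.inl h')), sub_self]
    · rw [Fin.append_right]
      unfold G2
      by_cases h : q i = 0
      · rw [if_pos h, eval_sbst, hblk, hBdef, ((hy i).2 h).1]
      · rw [if_neg h, map_zero]
  have hxP : y i0 ^ q i0 = eval x P := by
    rw [hP, eval_sbst, hblk, hBdef, (hy i0).1 hi0]
  obtain ⟨a0, ha0⟩ := hz j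
  have hw0 : 1 ≤ wgt (r := r) N j (wy q e) (Fin.castAdd N a0) := by
    unfold wgt
    rw [Fin.append_left]
  have hx0 : x (Fin.castAdd N a0) ≠ 0 := by rw [hxl]; exact ha0
  have hgcd : ∀ g : ℕ, (∀ i, x i ≠ 0 → g ∣ wgt (r := r) N j (wy q e) i) → g = 1 := by
    intro g hg
    have h1 := hg _ hx0
    unfold wgt at h1
    rw [Fin.append_left] at h1
    exact Nat.dvd_one.1 h1
  have hm : 1 ≤ e i0 := by
    have := heZ i0 hi0
    omega
  -- the number of conditions
  have hsum : (∑ i, d i + (q i0 - 1) * e i0 : ℕ) =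
      ∑ i, d1 q e i0 i + ∑ i, d2 q (fun i => κ i j) i + (q i0 - 1) * e i0 := by
    rw [hd, Fin.sum_univ_add]
    simp only [Fin.append_left, Fin.append_right]
  have hsumw : ∑ i, wgt (r := r) N j (wy q e) i = (r j + 1) + ∑ i, wy q e i := by
    unfold wgt
    rw [Fin.sum_univ_add]
    simp only [Fin.append_left, Fin.append_right, Finset.sum_const, Finset.card_univ,
      Fintype.card_fin, smul_eq_mul, mul_one]
  have hcount := count (κ := κ) hκ hi0
  rw [← hsum] at hcount
  have hmain : ∃ (c : Kind) (Φ : Fin (r j + 1 + N + 1) → MvPolynomial (Fin 3) ℂ),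
      EntireCurve (Fin.cons (e i0) (wgt (r := r) N j (wy q e))) (Cov G P (q i0))
        (fun t i => eval (par c t) (Φ i)) := by
    rcases hkind with h | h
    · have hlt : ∑ i, d i + (q i0 - 1) * e i0 < ∑ i, wgt (r := r) N j (wy q e) i := by
        rw [hsumw]
        have h1 : ((∑ i, d i + (q i0 - 1) * e i0 : ℕ) : ℝ) < ((r j + 1) + ∑ i, wy q e i : ℕ) := by
          rw [hcount]
          push_cast
          linarith
        exact_mod_cast h1
      obtain ⟨c', Φ, M, -, -, -, h1, -⟩ := exists_maps_neg hGw hPw hq0 hm hlt hy0 hw0 hx0 hgcd hxG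
        hxP
      exact ⟨c', Φ, h1⟩
    · have hle : ∑ i, d i + (q i0 - 1) * e i0 ≤ ∑ i, wgt (r := r) N j (wy q e) i := by
        rw [hsumw]
        have h1 : ((∑ i, d i + (q i0 - 1) * e i0 : ℕ) : ℝ) ≤ ((r j + 1) + ∑ i, wy q e i : ℕ) := by
          rw [hcount]
          push_cast
          linarith
        exact_mod_cast h1
      have hk : 3 ∣ q i0 ∨ 4 ∣ q i0 ∨ (2 ∣ q i0 ∧ 2 ≤ e i0) := by
        rcases h with h | h | h
        · exact Or.inl h
        · exact Or.inr (Or.inl h)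
        · refine Or.inr (Or.inr ⟨h.1, ?_⟩)
          have h1 := heZ i0 hi0
          have h2 := h.2
          omega
      obtain ⟨c', Φ, M, -, -, -, h1, -⟩ := exists_maps hGw hPw (by omega) hm hk hle hy0 hw0 hx0
        hgcd hxG hxP
      exact ⟨c', Φ, h1⟩
  obtain ⟨c', Φ, hΦ⟩ := hmain
  obtain ⟨f, hf⟩ : ∃ f : ℂ → Fin (r j + 1 + N + 1) → ℂ, f = fun t i => eval (par c' t) (Φ i) :=
    ⟨_, rfl⟩
  rw [← hf] at hΦ
  obtain ⟨hfd, hfX, s, t, hs, ht, hst⟩ := hΦ
  have hfd' : ∀ i, Differentiable ℂ fun t => f t i := fun i => (differentiable_pi.1 hfd) i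
  obtain ⟨b, hb⟩ : ∃ b : ℂ → Co r → ℂ, ∀ t, b t = blk N j z fun i => f t i.succ :=
    ⟨_, fun _ => rfl⟩
  obtain ⟨y', hy'⟩ : ∃ y' : ℂ → Fin N → ℂ, ∀ t i, y' t i = if q i = 0 then 0 else
    if i = i0 then f t 0 else f t (Fin.natAdd (r j + 1) i).succ := ⟨_, fun _ _ => rfl⟩
  -- the equations
  have hG1 : ∀ t i, (q i = 0 ∨ i = i0) → f t (Fin.natAdd (r j + 1) i).succ = 0 := by
    intro t i h
    have h1 := (hfX t).1 (Fin.castAdd N i)
    rw [hG, Fin.append_left] at h1
    unfold G1 at h1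
    rw [if_pos h, eval_X] at h1
    exact h1
  have hG1' : ∀ t i, q i ≠ 0 → i ≠ i0 →
      f t (Fin.natAdd (r j + 1) i).succ ^ q i = eval (b t) (B i) := by
    intro t i h h'
    have h1 := (hfX t).1 (Fin.castAdd N i)
    rw [hG, Fin.append_left] at h1
    unfold G1 at h1
    rw [if_neg (by tauto), map_sub, map_pow, eval_X, eval_sbst, ← hb] at h1
    exact sub_eq_zero.1 h1
  have hG2 : ∀ t i, q i = 0 → eval (b t) (B i) = 0 := by
    intro t i h
    have h1 := (hfX t).1 (Fin.natAdd N i)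
    rw [hG, Fin.append_right] at h1
    unfold G2 at h1
    rw [if_pos h, eval_sbst, ← hb] at h1
    exact h1
  have hP' : ∀ t, f t 0 ^ q i0 = eval (b t) (B i0) := by
    intro t
    have h1 := (hfX t).2
    rw [hP, eval_sbst, ← hb] at h1
    exact h1
  have hbl : ∀ t a, b t ⟨j, a⟩ = f t (Fin.castAdd N a).succ := by
    intro t a
    rw [hb, blk_same]
  have hbr : ∀ t (s : Co r), s.1 ≠ j → b t s = z s := by
    intro t s h
    rw [hb, blk_ne _ _ _ h]
  -- points
  have hpt : ∀ t, Nz (Fin.cons (e i0) (wgt (r := r) N j (wy q e))) (f t) → IsPt (b t) := by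
    intro t ht j'
    by_cases hj : j' = j
    · subst hj
      by_contra hcon
      push Not at hcon
      obtain ⟨i, hi1, hi2⟩ := ht
      refine hi2 ?_
      have hzero : ∀ i, q i ≠ 0 → e i ≠ 0 → eval (b t) (B i) = 0 := fun i h h' =>
        eval_zero_of_block (hB i) (j := j') (by
          rw [hκ i h]
          exact Nat.mul_pos (Nat.pos_of_ne_zero h) (Nat.pos_of_ne_zero h')) hcon
      refine Fin.cases ?_ (fun i => ?_) i hi1
      · intro _
        have h1 := hP' t
        rw [hzero i0 hi0 (by omega)] at h1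
        exact pow_eq_zero_iff hi0 |>.1 h1
      · refine Fin.addCases (fun a => ?_) (fun i => ?_) i
        · intro _
          rw [← hbl, hcon]
        · intro h1
          by_cases h2 : q i = 0 ∨ i = i0
          · exact hG1 t i h2
          · push Not at h2
            have h3 : e i ≠ 0 := by
              intro h4
              apply h1
              rw [Fin.cons_succ]
              unfold wgt
              rw [Fin.append_right]
              unfold wy
              rw [if_neg h2.1, h4]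
            have h4 := hG1' t i h2.1 h2.2
            rw [hzero i h2.1 h3] at h4
            exact pow_eq_zero_iff h2.1 |>.1 h4
    · obtain ⟨a, ha⟩ := hz j'
      exact ⟨a, by rw [hbr t ⟨j', a⟩ hj]; exact ha⟩
  refine ⟨fun _ => v, b, y', ⟨differentiable_const _, ?_, ?_, fun t i => ⟨fun h => ?_, fun h => ?_⟩,
    ⟨s, t, hpt s hs, hpt t ht, ?_⟩⟩⟩
  · refine differentiable_pi.2 fun s => ?_
    by_cases h : s.1 = j
    · obtain ⟨j', a⟩ := s
      change j' = j at h
      subst h
      simp only [hbl]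
      exact hfd' _
    · simp only [hbr _ s h]
      exact differentiable_const _
  · refine differentiable_pi.2 fun i => ?_
    simp only [hy']
    by_cases h : q i = 0
    · simp only [if_pos h]
      exact differentiable_const _
    · simp only [if_neg h]
      by_cases h' : i = i0
      · simp only [if_pos h']
        exact hfd' _
      · simp only [if_neg h']
        exact hfd' _
  · rw [hy', if_neg h]
    by_cases h' : i = i0
    · rw [if_pos h', h', hP', hBdef]
    · rw [if_neg h', hG1' t i h h', hBdef]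
  · rw [hy', if_pos h, ← hBdef, hG2 t i h]
    exact ⟨rfl, rfl⟩
  · rintro ⟨-, μ, hμ, hμy⟩
    apply hst
    have hμ1 : ∀ j', j' ≠ j → μ j' = 1 := by
      intro j' hj
      obtain ⟨a, ha⟩ := hz j'
      have h1 := congrFun hμ ⟨j', a⟩
      rw [hbr t ⟨j', a⟩ hj] at h1
      change z ⟨j', a⟩ = μ j' * b s ⟨j', a⟩ at h1
      rw [hbr s ⟨j', a⟩ hj] at h1
      have h2 : (μ j' : ℂ) * z ⟨j', a⟩ = 1 * z ⟨j', a⟩ := by rw [one_mul]; exact h1.symm
      exact Units.ext (mul_right_cancel₀ ha h2)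
    have hprod : ∀ i, q i ≠ 0 → ∏ j', (μ j' : ℂ) ^ (R i).deg j' = (μ j : ℂ) ^ e i := by
      intro i h
      rw [Finset.prod_eq_single j]
      · rw [← heZ i h, zpow_natCast]
      · intro j' _ hj
        rw [hμ1 j' hj, Units.val_one, one_zpow]
      · intro h
        exact absurd (Finset.mem_univ j) h
    refine ⟨μ j, Units.ne_zero _, funext fun i => ?_⟩
    refine Fin.cases ?_ (fun i => ?_) i
    · have h1 := hμy i0 hi0
      rw [hy', hy', if_neg hi0, if_neg hi0, if_pos rfl, if_pos rfl, hprod i0 hi0] at h1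
      rw [Fin.cons_zero]
      exact h1
    · refine Fin.addCases (fun a => ?_) (fun i => ?_) i
      · have h1 := congrFun hμ ⟨j, a⟩
        change b t ⟨j, a⟩ = μ j * b s ⟨j, a⟩ at h1
        rw [hbl, hbl] at h1
        rw [Fin.cons_succ]
        unfold wgt
        rw [Fin.append_left, pow_one]
        exact h1
      · by_cases h2 : q i = 0 ∨ i = i0
        · rw [hG1 t i h2, hG1 s i h2, mul_zero]
        · push Not at h2
          have h1 := hμy i h2.1
          rw [hy', hy', if_neg h2.1, if_neg h2.1, if_neg h2.2, if_neg h2.2, hprod i h2.1] at h1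
          rw [Fin.cons_succ]
          unfold wgt
          rw [Fin.append_right]
          unfold wy
          rw [if_neg h2.1]
          exact h1

end Pool.Agent.H896.IG
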