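import Pool.Agent.H896.KB.Stmt
import Pool.Agent.H896.CT.Bun
import Pool.Agent.H896.IL.Lin

/-!
# Entire curves in the flat directions
-/

set_option autoImplicit false

namespace Pool.Agent.H896.IG

open MvPolynomial Pool.Agent.T2H08.FB Pool.Agent.W594.SYZ2 Pool.Agent.W594.SYZ2.TQ
  Pool.Agent.TH735.AQ
open Pool.Agent.T2H08 Pool.Agent.H896.IQ

variable {n c : ℕ} {r : Fin c → ℕ} {Γ : Subgroup (Trans n r)} {N : ℕ}

/-- The canonical class is trivial along `V` if there are no reflections. -/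
theorem canonical_form_zero (hΓ : IsIsometryGroup Γ) {m : ℕ} {K : LineBundle Γ}
    (hK : IsLogPluricanonical K m (fun _ => 1) 1 (fun _ => 0) (fun _ => 1) (fun _ => 0))
    {H : (Fin n → ℂ) → (Fin n → ℂ) → ℂ} (hc : K.IsChernForm H) (u : Fin n → ℂ) :
    (H u u).re = 0 := by
  obtain ⟨hH, f, hf, h⟩ := hc
  obtain ⟨φ, hφ⟩ : ∃ φ : (Fin n → ℂ) → ℝ, ∀ v, φ v = Real.pi * (H v v).re + 2 * (f v).re :=
    ⟨_, fun _ => rfl⟩
  have hφc : Continuous φ := by
    have h1 : φ = fun v => Real.pi * (H v v).re + 2 * (f v).re := funext hφ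
    rw [h1]
    refine Continuous.add ?_ ?_
    · exact continuous_const.mul (diag_continuous hH)
    · exact continuous_const.mul (Complex.continuous_re.comp hf.continuous)
  have hinv : ∀ g ∈ Γ, ∀ v, φ (onV g v) = φ v := by
    intro g hg v
    obtain ⟨π, hπ⟩ := hΓ.isoF g hg
    have h1 := hK.eq g hg π hπ v 0
    simp only [map_one, mul_one, one_pow] at h1
    have h2 : ‖K.e g v‖ = 1 := by
      have h3 := congrArg norm h1
      rw [norm_one, norm_mul, norm_pow, norm_mul, norm_jac hΓ hg, mul_one] at h3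
      have h4 : ‖((Equiv.Perm.sign π : ℤ) : ℂ)‖ = 1 := by
        rcases Int.units_eq_one_or (Equiv.Perm.sign π) with h5 | h5
        · rw [h5]; simp
        · rw [h5]; simp
      rw [h4, one_pow, mul_one] at h3
      exact h3.symm
    have h3 := h g hg v
    rw [h2, one_pow] at h3
    have h4 := (Real.exp_eq_one_iff _).1 h3.symm
    rw [hφ, hφ]
    linarith
  obtain ⟨C, hC⟩ := cobounded (latt (FQ.GA (fac Γ))) (isUQ hΓ).torus.span_top
  obtain ⟨R, hR⟩ := (isBounded_iff_forall_norm_le.1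
    (((isCompact_closedBall (0 : Fin n → ℂ) C).image hφc).isBounded))
  have hbd : ∀ v, |φ v| ≤ R := by
    intro v
    obtain ⟨b, hb, hbC⟩ := hC v
    obtain ⟨A, hA⟩ := FQ.mem_GA.1 (mem_latt.1 hb)
    have h1 := hinv _ hA.1 v
    rw [← h1]
    refine hR _ ⟨_, ?_, rfl⟩
    rw [mem_closedBall_zero_iff]
    exact hbC
  have hline : Differentiable ℂ fun t : ℂ => f (t • u) :=
    hf.comp (differentiable_id.smul_const u)
  have hq : ∀ t : ℂ, φ (t • u) = Real.pi * (‖t‖ ^ 2 * (H u u).re) + 2 * (f (t • u)).re := by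
    intro t
    rw [hφ]
    congr 2
    have h1 : H u (t • u) = (starRingEnd ℂ) t * H u u := by
      rw [hH.symm (t • u) u, hH.smul_left, map_mul, ← hH.symm]
    rw [hH.smul_left, h1, ← mul_assoc, Complex.mul_conj, Complex.re_ofReal_mul,
      Complex.normSq_eq_norm_sq]
  have key : ∀ ε : ℝ, ε = 1 ∨ ε = -1 → ¬ 0 < ε * (H u u).re := by
    intro ε hε hpos
    have h2 : Differentiable ℂ fun t : ℂ => Complex.exp ((ε : ℂ) * f (t • u)) :=
      (hline.const_mul _).cexp
    have h3 := Q47.MM.zero_of_decay h2 (R := Real.exp R) (c := Real.pi * (ε * (H u u).re))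
      (Real.exp_pos _).le (by positivity) (fun t => by
        rw [Complex.norm_exp, Complex.re_ofReal_mul, ← Real.exp_nat_mul, ← Real.exp_add]
        refine Real.exp_le_exp.2 ?_
        have h4 := hq t
        have h5 := abs_le.1 (hbd (t • u))
        push_cast
        rcases hε with rfl | rfl
        · nlinarith [h5.1, h5.2]
        · nlinarith [h5.1, h5.2]) 0
    exact Complex.exp_ne_zero _ h3
  by_contra hne
  rcases lt_or_gt_of_ne hne with h1 | h1
  · exact key (-1) (Or.inr rfl) (by linarith)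
  · exact key 1 (Or.inl rfl) (by linarith)

/-- the equation of a divisor as a section -/
theorem cartier_section {D : LineBundle Γ} {β : (Fin n → ℂ) → MvPolynomial (Co r) ℂ}
    {κ : Fin c → ℕ} (hβ : IsCartier D β κ) : D.IsSection 1 fun v z => eval z (β v) := by
  have hβ' := eff_conv hβ.effective
  refine ⟨?_, ?_, ?_⟩
  · exact FQ.holo_eval hβ'.holo hβ'.homog
  · intro μ v z
    have h1 := eval_scal (hβ'.homog v) μ z
    change eval (FQ.scal μ z) (β v) = _
    rw [h1]
    congr 1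
    refine Finset.prod_congr rfl fun j _ => ?_
    rw [hβ.deg j, Nat.cast_one, one_mul, zpow_natCast]
  · intro g hg v z
    rw [pow_one]
    exact hβ.eq g hg v z

/-- The equation of a divisor along the kernel of its Chern form. -/
theorem cartier_ker (hΓ : IsIsometryGroup Γ) {D : LineBundle Γ}
    {β : (Fin n → ℂ) → MvPolynomial (Co r) ℂ} {κ : Fin c → ℕ} (hβ : IsCartier D β κ)
    {H : (Fin n → ℂ) → (Fin n → ℂ) → ℂ} (hc : D.IsChernForm H) :
    ∃ f : (Fin n → ℂ) → ℂ, Differentiable ℂ f ∧ ∀ u, (∀ w, H u w = 0) → ∀ v z, IsPt z →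
      eval z (β (v + u)) = Complex.exp (f (v + u) - f v) * eval z (β v) := by
  obtain ⟨hH, f, hf, h⟩ := hc
  refine ⟨f, hf, fun u hu v z hz => ?_⟩
  have h1 := nsec_ker hΓ hH (L := D) (f := f) ⟨hf, h⟩ (cartier_section hβ) (u := u) hu v hz
  unfold nsec at h1
  simp only [Nat.cast_one, one_mul] at h1
  rw [sub_eq_add_neg, Complex.exp_add, mul_assoc, mul_comm (Complex.exp (-f v)), ← h1,
    mul_comm, mul_assoc, ← Complex.exp_add, neg_add_cancel, Complex.exp_zero, mul_one]

/-- **Entire curves in the direction of a common kernel.** -/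
theorem curve_flat (hΓ : IsIsometryGroup Γ) {D : Fin N → LineBundle Γ}
    {β : Fin N → (Fin n → ℂ) → MvPolynomial (Co r) ℂ} {κ : Fin N → Fin c → ℕ}
    (hβ : ∀ i, IsCartier (D i) (β i) (κ i))
    {HD : Fin N → (Fin n → ℂ) → (Fin n → ℂ) → ℂ} (hHD : ∀ i, (D i).IsChernForm (HD i))
    {q : Fin N → ℕ} {R : Fin N → LineBundle Γ} {u : Fin n → ℂ} (hu0 : u ≠ 0)
    (hu : ∀ i w, HD i u w = 0) {v : Fin n → ℂ} {z : Co r → ℂ} {y : Fin N → ℂ} (hz : IsPt z)
    (hy : OnCover q β v z y) :
    ∃ a b y', IsEntireCurve R q β a b y' ∧ a 0 = v ∧ b 0 = z ∧ y' 0 = y := by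
  choose f hf hfe using fun i => cartier_ker hΓ (hβ i) (hHD i)
  have hline : Differentiable ℂ fun t : ℂ => v + t • u :=
    (differentiable_id.smul_const u).const_add v
  have hfl : ∀ i, Differentiable ℂ fun t : ℂ => (f i (v + t • u) - f i v) / (q i : ℂ) := fun i =>
    (((hf i).comp hline).sub_const _).div_const _
  refine ⟨fun t => v + t • u, fun _ => z,
    fun t i => y i * Complex.exp ((f i (v + t • u) - f i v) / (q i : ℂ)), ⟨hline,
    differentiable_const _, differentiable_pi.2 fun i => ((hfl i).cexp).const_mul _, fun t i => ?_,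
    ⟨0, 1, hz, hz, ?_⟩⟩, ?_, rfl, ?_⟩
  · have h1 : ∀ w, HD i (t • u) w = 0 := fun w => by
      rw [(hHD i).1.smul_left, hu, mul_zero]
    have h2 := hfe i (t • u) h1 v z hz
    refine ⟨fun hq => ?_, fun hq => ?_⟩
    · rw [h2, mul_pow, ← Complex.exp_nat_mul, (hy i).1 hq, mul_comm]
      congr 2
      have : (q i : ℂ) ≠ 0 := by exact_mod_cast hq
      field_simp
    · rw [h2, ((hy i).2 hq).1, ((hy i).2 hq).2, mul_zero, zero_mul]
      exact ⟨rfl, rfl⟩
  · rintro ⟨h1, -⟩
    simp only [one_smul, zero_smul, add_zero] at h1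
    exact hu0 (by simpa using h1)
  · simp
  · funext i
    simp

end Pool.Agent.H896.IG
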