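import Pool.Agent.H896.KB.Fib
import Pool.Agent.H896.KB.Flat

/-!
# The main theorem
-/

set_option autoImplicit false

namespace Pool.Agent.H896.IG

open MvPolynomial Pool.Agent.T2H08.FB Pool.Agent.W594.SYZ2 Pool.Agent.W594.SYZ2.TQ
open Pool.Agent.T2H08 Pool.Agent.H896.IQ

variable {n c : ℕ} {r : Fin c → ℕ} {Γ : Subgroup (Trans n r)} {N : ℕ}

/-- A polynomial of degree zero in the coordinates of a factor does not depend on them. -/
theorem eval_of_degree_zero {k : Fin c → ℕ} {p : MvPolynomial (Co r) ℂ} (hp : FQ.IsHomog k p)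
    {j : Fin c} (hk : k j = 0) {z z' : Co r → ℂ} (hz : ∀ s : Co r, s.1 ≠ j → z' s = z s) :
    eval z' p = eval z p := by
  classical
  rw [eval_eq', eval_eq']
  refine Finset.sum_congr rfl fun I hI => ?_
  congr 1
  refine Finset.prod_congr rfl fun s _ => ?_
  by_cases h : s.1 = j
  · obtain ⟨j', a⟩ := s
    change j' = j at h
    subst h
    have h1 := hp I hI j'
    rw [hk] at h1
    have h2 : I ⟨j', a⟩ = 0 := (Finset.sum_eq_zero_iff.1 h1) a (Finset.mem_univ a)
    rw [h2, pow_zero, pow_zero]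
  · rw [hz s h]

variable {D R : Fin N → LineBundle Γ} {β : Fin N → (Fin n → ℂ) → MvPolynomial (Co r) ℂ}
  {κ : Fin N → Fin c → ℕ} {q : Fin N → ℕ} {v : Fin n → ℂ} {z : Co r → ℂ} {y : Fin N → ℂ}

/-- **Lines in the factors which are not met by the divisors.** -/
theorem curve_line (hΓ : IsIsometryGroup Γ) (hβ : ∀ i, IsCartier (D i) (β i) (κ i)) {j : Fin c}
    (hj : ∀ i, (D i).deg j = 0) (hz : IsPt z) (hy : OnCover q β v z y) :
    ∃ a b y', IsEntireCurve R q β a b y' := by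
  classical
  obtain ⟨a0, ha0⟩ := hz j
  obtain ⟨a1, ha1⟩ : ∃ a1 : Fin (r j + 1), a1 ≠ a0 := by
    have := hΓ.pos j
    have : Nontrivial (Fin (r j + 1)) := Fin.nontrivial_iff_two_le.2 (by omega)
    exact exists_ne a0
  let b : ℂ → Co r → ℂ := fun t s => z s + t * (if s = ⟨j, a1⟩ then 1 else 0)
  have hb : ∀ t (s : Co r), s.1 ≠ j → b t s = z s := by
    intro t s h
    change z s + t * (if s = ⟨j, a1⟩ then 1 else 0) = z s
    rw [if_neg (fun h' => h (by rw [h'])), mul_zero, add_zero]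
  have hb0 : ∀ t, b t ⟨j, a0⟩ = z ⟨j, a0⟩ := by
    intro t
    change z ⟨j, a0⟩ + t * (if (⟨j, a0⟩ : Co r) = ⟨j, a1⟩ then 1 else 0) = z ⟨j, a0⟩
    rw [if_neg (fun h' => ha1 (by
      have h2 := (Sigma.mk.injEq _ _ _ _).mp h'
      exact (eq_of_heq h2.2).symm)), mul_zero, add_zero]
  have hb1 : ∀ t, b t ⟨j, a1⟩ = z ⟨j, a1⟩ + t := by
    intro t
    change z ⟨j, a1⟩ + t * (if (⟨j, a1⟩ : Co r) = ⟨j, a1⟩ then 1 else 0) = z ⟨j, a1⟩ + t
    rw [if_pos rfl, mul_one]
  have hpt : ∀ t, IsPt (b t) := by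
    intro t j'
    by_cases h : j' = j
    · subst h
      exact ⟨a0, by rw [hb0]; exact ha0⟩
    · obtain ⟨a, ha⟩ := hz j'
      exact ⟨a, by rw [hb t ⟨j', a⟩ h]; exact ha⟩
  have hev : ∀ t i, eval (b t) (β i v) = eval z (β i v) := by
    intro t i
    refine eval_of_degree_zero ((eff_conv (hβ i).effective).homog v) (j := j) ?_ (hb t)
    have h1 := (hβ i).deg j
    rw [hj i] at h1
    exact_mod_cast h1.symm
  refine ⟨fun _ => v, b, fun _ => y, ⟨differentiable_const _, ?_, differentiable_const _,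
    fun t i => ?_, ⟨0, 1, hpt 0, hpt 1, ?_⟩⟩⟩
  · refine differentiable_pi.2 fun s => ?_
    exact (differentiable_id.mul_const _).const_add _
  · rw [hev]
    exact hy i
  · rintro ⟨-, μ, hμ, -⟩
    have h1 := congrFun hμ ⟨j, a0⟩
    have h2 := congrFun hμ ⟨j, a1⟩
    change b 1 ⟨j, a0⟩ = μ j * b 0 ⟨j, a0⟩ at h1
    change b 1 ⟨j, a1⟩ = μ j * b 0 ⟨j, a1⟩ at h2
    rw [hb0, hb0] at h1
    rw [hb1, hb1] at h2
    have h3 : (μ j : ℂ) = 1 := by
      have h4 : (μ j : ℂ) * z ⟨j, a0⟩ = 1 * z ⟨j, a0⟩ := by rw [one_mul]; exact h1.symm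
      exact mul_right_cancel₀ ha0 h4
    rw [h3] at h2
    have h4 : (1 : ℂ) = 0 := by linear_combination h2
    exact one_ne_zero h4

/-- **The main theorem.** -/
theorem positive_of_hyperbolic (hΓ : IsIsometryGroup Γ) {m : ℕ} (hm : 1 ≤ m) {K : LineBundle Γ}
    (hK : IsLogPluricanonical K m (fun _ => 1) 1 (fun _ => 0) (fun _ => 1) (fun _ => 0))
    {HK : (Fin n → ℂ) → (Fin n → ℂ) → ℂ} (hHK : K.IsChernForm HK)
    (hβ : ∀ i, IsCartier (D i) (β i) (κ i))
    {HD : Fin N → (Fin n → ℂ) → (Fin n → ℂ) → ℂ} (hHD : ∀ i, (D i).IsChernForm (HD i))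
    (hq : ∀ i, q i ≠ 1) (hR : ∀ i, q i ≠ 0 → IsRoot (R i) (q i) (D i))
    (hpt : ∃ v z y, IsPt z ∧ OnCover q β v z y ∧ ∀ i, q i ≠ 0 → y i ≠ 0)
    (hfac : ∀ j, (realClass K HK D HD (1 / m) fun i => 1 - 1 / (q i : ℝ)).2 j ≤ 0 →
      FactorCondition D R q ((realClass K HK D HD (1 / m) fun i => 1 - 1 / (q i : ℝ)).2 j) j)
    (hyp : ¬ ∃ a b y, IsEntireCurve R q β a b y) :
    IsPositiveClass (realClass K HK D HD (1 / m) fun i => 1 - 1 / (q i : ℝ)) := by
  obtain ⟨v, z, y, hz, hy, hy0⟩ := hpt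
  have hm0 : (m : ℝ) ≠ 0 := by
    have : m ≠ 0 := by omega
    exact_mod_cast this
  have hpos : ∀ i, 0 < 1 - 1 / (q i : ℝ) := by
    intro i
    by_cases h : q i = 0
    · rw [h]
      norm_num
    · have h1 : 2 ≤ q i := by
        have := hq i
        omega
      have h2 : (2 : ℝ) ≤ q i := by exact_mod_cast h1
      have h3 : 1 / (q i : ℝ) ≤ 1 / 2 := one_div_le_one_div_of_le (by norm_num) h2
      linarith
  refine ⟨fun u hu => ?_, fun j => ?_⟩
  · by_contra hcon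
    push Not at hcon
    apply hyp
    have h1 : ((realClass K HK D HD (1 / m) fun i => 1 - 1 / (q i : ℝ)).1 u u).re =
        ∑ i, (1 - 1 / (q i : ℝ)) * (HD i u u).re := by
      change (((1 / m : ℝ) : ℂ) * HK u u + ∑ i, ((1 - 1 / (q i : ℝ) : ℝ) : ℂ) * HD i u u).re = _
      rw [Complex.add_re, Complex.re_ofReal_mul, canonical_form_zero hΓ hK hHK, mul_zero, zero_add,
        Complex.re_sum]
      exact Finset.sum_congr rfl fun i _ => by rw [Complex.re_ofReal_mul]
    rw [h1] at hcon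
    have hn : ∀ i, IsNefForm (HD i) := fun i => nef_of_cartier hΓ (hβ i) (hHD i)
    have h2 : ∀ i ∈ Finset.univ, 0 ≤ (1 - 1 / (q i : ℝ)) * (HD i u u).re := fun i _ =>
      mul_nonneg (hpos i).le (hn i u)
    have h3 := (Finset.sum_eq_zero_iff_of_nonneg h2).1 (le_antisymm hcon (Finset.sum_nonneg h2))
    have h4 : ∀ i, (HD i u u).re = 0 := fun i =>
      (mul_eq_zero.1 (h3 i (Finset.mem_univ i))).resolve_left (hpos i).ne'
    obtain ⟨a, b, y', h5, -⟩ := curve_flat hΓ hβ hHD (R := R) hu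
      (fun i w => h_isotropic (hHD i).1 (hn i) u (h4 i) w) hz hy
    exact ⟨a, b, y', h5⟩
  · by_contra hcon
    push Not at hcon
    apply hyp
    have hdeg : (realClass K HK D HD (1 / m) fun i => 1 - 1 / (q i : ℝ)).2 j =
        ∑ i, (1 - 1 / (q i : ℝ)) * κ i j - (r j + 1) := by
      change (1 / m : ℝ) * K.deg j + ∑ i, (1 - 1 / (q i : ℝ)) * (D i).deg j = _
      have h1 := hK.deg j
      have h2 : (K.deg j : ℝ) = -(m * (r j + 1)) := by
        have h3 : ((K.deg j + m * (((0 : ℕ) : ℤ) + (r j + 1)) : ℤ) : ℝ) = (((0 : ℕ) : ℤ) : ℝ) := by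
          exact_mod_cast h1
        push_cast at h3
        linarith
      have h3 : ∀ i, ((D i).deg j : ℝ) = κ i j := fun i => by
        rw [(hβ i).deg j]
        push_cast
        rfl
      rw [h2]
      simp only [h3]
      field_simp
      ring
    rcases hfac j hcon with h | ⟨i0, hi0, hi1, hi2⟩
    · exact curve_line hΓ hβ h hz hy
    · rw [hdeg] at hcon hi2
      refine curve_fibre (j := j) hβ hR hz hy (i0 := i0) (by have := hq i0; omega) (hy0 i0 hi0) hi1
        (by linarith) ?_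
      rcases hi2 with h | h
      · exact Or.inl (by linarith)
      · exact Or.inr h

end Pool.Agent.H896.IG
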