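import Pool.Graph.R_pool_sql_team_seeded_620a6dc7.Helper568_GC.Main

/-!
# Rational curves on cyclic coverings of negative canonical degree

The library theorem `Helper568.GC.exists_maps` is about nonpositive canonical degree, with a condition on
the order of the covering. For negative canonical degree no condition is needed.
-/

set_option autoImplicit false

namespace Pool.Agent.Helper568.GC

open MvPolynomial

variable {n r : ℕ} {w : Fin n → ℕ} {G : Fin r → MvPolynomial (Fin n) ℂ} {d : Fin r → ℕ}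
  {F : MvPolynomial (Fin n) ℂ} {k m : ℕ}

theorem exists_xi_count (hG : ∀ j, IsWeightedHomogeneous w (G j) (d j))
    (hF : IsWeightedHomogeneous w F (k * m)) (hk : 1 ≤ k) {i0 : Fin n} (hi0 : 1 ≤ w i0)
    {s u' : ℕ} {a1 : Fin s → ℕ} (ha1 : ∀ v, 0 < a1 v)
    (hsum : ∑ v, a1 v + u' * k = k * m) (hcount : ∑ j, d j + k * m + 1 < ∑ i, w i + (s + u'))
    {x : Fin n → ℂ} (hx : ∀ j, eval x (G j) = 0) (hxF : eval x F ≠ 0) :
    ∃ (ξ : Fin n → Polynomial ℂ) (τ1 : Fin s → ℂ) (τ2 : Fin u' → ℂ),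
      (∀ i, (ξ i).natDegree ≤ w i) ∧ (ξ i0).coeff 1 = 0 ∧ (∀ i, (ξ i).coeff 0 = x i) ∧
      (∃ i, 1 ≤ (ξ i).natDegree) ∧ (∀ j t, eval (fun i => (ξ i).eval t) (G j) = 0) ∧
      ∀ t, eval (fun i => (ξ i).eval t) F =
        eval x F * ((∏ v, (1 + τ1 v * t) ^ a1 v) * (∏ v, (1 + τ2 v * t)) ^ k) := by
  classical
  obtain ⟨ξ, τ, h1, h2, hc, h3, h4, h5⟩ := exists_curve' (k := ℂ) (M := ℂ) (w := w)
    (F := G) (e := d) (fun j => wdeg_of (hG j)) (G := F) (d := k * m)
    (wdeg_of hF) (u := s + u') (a := Fin.append a1 fun _ => k) (by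
      intro v
      refine Fin.addCases (fun i => ?_) (fun i => ?_) v
      · rw [Fin.append_left]
        exact ha1 i
      · rw [Fin.append_right]
        omega) (by
      rw [Fin.sum_univ_add]
      simp only [Fin.append_left, Fin.append_right]
      rw [Finset.sum_const, Finset.card_univ, Fintype.card_fin, smul_eq_mul]
      exact hsum) (i0 := i0) (by omega) hcount (x := x)
    (fun j => by rw [aeval_eq_eval]; exact hx j) (by rw [aeval_eq_eval]; exact hxF)
  refine ⟨ξ, fun v => τ (Fin.castAdd u' v), fun v => τ (Fin.natAdd s v), h1, hc, h2, ?_, ?_, ?_⟩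
  · obtain ⟨i, hi⟩ := h3
    refine ⟨i, ?_⟩
    by_contra h6
    apply hi
    have h7 : (ξ i).natDegree = 0 := by omega
    rw [Polynomial.eq_C_of_natDegree_eq_zero h7, h2]
  · intro j t
    rw [← aeval_eval', h4, Polynomial.eval_zero]
  · intro t
    rw [← aeval_eval', h5, Polynomial.eval_mul, Polynomial.eval_C, Polynomial.eval_prod,
      Fin.prod_univ_add, aeval_eq_eval]
    congr 2
    · refine Finset.prod_congr rfl fun v _ => ?_
      simp [Fin.append_left]
    · rw [← Finset.prod_pow]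
      refine Finset.prod_congr rfl fun v _ => ?_
      simp [Fin.append_right]

/-- coverings of the line which are ramified in two points -/
theorem par_deg {k : ℕ} (hk : 1 ≤ k) (a b : ℂ) :
    Par k 1 (fun f g => (f + a * g) ^ (k - 1) * (f + b * g)) := by
  have hkk : k - 1 + 1 = k := Nat.sub_add_cancel hk
  by_cases hab : a = b
  · subst hab
    refine par_all k 1 _ (X 0 + C a * X 1) (wh_form a) (fun f g => ?_) ?_
    · simp only [map_add, map_mul, eval_C, eval_X, (cons3 _ _ _).1, (cons3 _ _ _).2.1]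
      rw [← pow_succ, hkk]
    · simp only [map_add, map_mul, eval_C, eval_X, (cons3 _ _ _).1, (cons3 _ _ _).2.1]
      ring
  · refine par_pair k 1 k hab _ hk (X 0 ^ (k - 1) * X 1) ?_ (fun f g s t h1 h2 => ?_) ?_
    · have h := (wh_pow (w := ![1, 1, 1]) 0 (k - 1)).mul (wh_X (w := ![1, 1, 1]) 1)
      have e : (k - 1) * (![1, 1, 1] : Fin 3 → ℕ) 0 + (![1, 1, 1] : Fin 3 → ℕ) 1 = 1 * k := by
        change (k - 1) * 1 + 1 = 1 * k
        omega
      rwa [e] at h
    · simp only [map_mul, eval_X, map_pow, (cons3 _ _ _).1, (cons3 _ _ _).2.1]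
      rw [h1, h2]
      ring
    · simp only [map_mul, eval_X, map_pow, (cons3 _ _ _).1, (cons3 _ _ _).2.1]
      ring

/-- **Curves on coverings of negative canonical degree.** -/
theorem exists_maps_neg (hG : ∀ j, IsWeightedHomogeneous w (G j) (d j))
    (hF : IsWeightedHomogeneous w F (k * m)) (hk : 2 ≤ k) (hm : 1 ≤ m)
    (hlt : ∑ j, d j + (k - 1) * m < ∑ i, w i)
    {x : Fin n → ℂ} {y0 : ℂ} (hy : y0 ≠ 0) {i0 : Fin n} (hi0 : 1 ≤ w i0) (hx0 : x i0 ≠ 0)
    (hgcd : ∀ g : ℕ, (∀ i, x i ≠ 0 → g ∣ w i) → g = 1)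
    (hx : ∀ j, eval x (G j) = 0) (hxF : y0 ^ k = eval x F) :
    ∃ (c : Kind) (Φ : Fin (n + 1) → MvPolynomial (Fin 3) ℂ) (M : ℕ),
      CurveMap (Fin.cons m w) (Cov G F k) c Φ ∧
      (∀ i, IsWeightedHomogeneous (wts c) (Φ i) (M * (Fin.cons m w : Fin (n + 1) → ℕ) i)) ∧
      (∃ P ∈ Pts c, (fun i => eval P (Φ i)) = (Fin.cons y0 x : Fin (n + 1) → ℂ)) ∧
      EntireCurve (Fin.cons m w) (Cov G F k) (fun z i => eval (par c z) (Φ i)) ∧
      EssentialMap (Fin.cons m w) (Cov G F k)
        (fun z i => eval (par c (Complex.exp z⁻¹)) (Φ i)) := by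
  have hxF0 : eval x F ≠ 0 := by
    rw [← hxF]
    exact pow_ne_zero _ hy
  have hkm : (k - 1) * m + m = k * m := by
    rw [← Nat.succ_mul]
    congr 1
    omega
  have hkm' : (m - 1) * k + k = k * m := by
    rw [← Nat.succ_mul, mul_comm k m]
    congr 1
    omega
  obtain ⟨ξ, τ1, τ2, h1, h2, h3, h4, h5, h6⟩ := exists_xi_count hG hF (by omega) hi0 (s := 2)
    (u' := m - 1) (a1 := ![k - 1, 1]) (fun v => by
      fin_cases v
      · change 0 < k - 1
        omega
      · exact Nat.one_pos) (by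
      rw [Fin.sum_univ_two]
      change k - 1 + 1 + _ = _
      omega) (by omega) hx hxF0
  refine core hG hF (κ := k) (l := 1) (k' := 1) (u' := m - 1) (mul_one k).symm (by omega)
    (par_deg (by omega) (τ1 0) (τ1 1)) (fun s t hs => ?_) (fun t => by fun_prop) hi0 hx0 hgcd h1
    h2 h3 h4 h5 (τ := τ2) (fun t => ?_)
  · have e1 : s + τ1 0 * t = s * (1 + τ1 0 * (t / s)) := by field_simp
    have e2 : s + τ1 1 * t = s * (1 + τ1 1 * (t / s)) := by field_simp
    rw [e1, e2, mul_pow, mul_one]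
    have e3 : s ^ k = s ^ (k - 1) * s := by
      rw [← pow_succ]
      congr 1
      omega
    rw [e3]
    ring
  · rw [h6, hxF, Fin.prod_univ_two, pow_one]
    change _ * ((1 + τ1 0 * t) ^ (k - 1) * (1 + τ1 1 * t) ^ 1 * _) = _
    rw [pow_one]

end Pool.Agent.Helper568.GC
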