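import Pool.Agent.H896.KB.Neg
import Pool.Agent.H896.IR.Adj

/-!
# The equations on one factor
-/

set_option autoImplicit false

namespace Pool.Agent.H896.IG

open MvPolynomial Pool.Agent.T2H08.FB
open Pool.Agent.T2H08

variable {c : ℕ} {r : Fin c → ℕ} {N : ℕ}

/-- the coordinates of the `j`-th factor are replaced by `x` -/
def blk (N : ℕ) (j : Fin c) (z : Co r → ℂ) (x : Fin (r j + 1 + N) → ℂ) : Co r → ℂ := fun s =>
  if h : s.1 = j then x (Fin.castAdd N (Fin.cast (congrArg (fun j => r j + 1) h) s.2)) else z s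

/-- the same for polynomials -/
noncomputable def sbst (N : ℕ) (j : Fin c) (z : Co r → ℂ) :
    Co r → MvPolynomial (Fin (r j + 1 + N)) ℂ := fun s =>
  if h : s.1 = j then X (Fin.castAdd N (Fin.cast (congrArg (fun j => r j + 1) h) s.2))
  else C (z s)

theorem blk_same (j : Fin c) (z : Co r → ℂ) (x : Fin (r j + 1 + N) → ℂ) (a : Fin (r j + 1)) :
    blk N j z x ⟨j, a⟩ = x (Fin.castAdd N a) := by
  unfold blk
  rw [dif_pos rfl]
  rfl

theorem blk_ne (j : Fin c) (z : Co r → ℂ) (x : Fin (r j + 1 + N) → ℂ) {s : Co r} (h : s.1 ≠ j) :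
    blk N j z x s = z s := by
  unfold blk
  rw [dif_neg h]

theorem blk_self (j : Fin c) (z : Co r → ℂ) (x : Fin (r j + 1 + N) → ℂ)
    (h : ∀ a, x (Fin.castAdd N a) = z ⟨j, a⟩) : blk N j z x = z := by
  funext s
  by_cases hs : s.1 = j
  · obtain ⟨j', a⟩ := s
    change j' = j at hs
    subst hs
    rw [blk_same, h]
  · exact blk_ne j z x hs

theorem eval_sbst (j : Fin c) (z : Co r → ℂ) (x : Fin (r j + 1 + N) → ℂ)
    (p : MvPolynomial (Co r) ℂ) :
    eval x (aeval (sbst N j z) p) = eval (blk N j z x) p := by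
  induction p using MvPolynomial.induction_on with
  | C a => rw [← algebraMap_eq, AlgHom.commutes, algebraMap_eq, eval_C, algebraMap_eq, eval_C]
  | add p q hp hq => rw [map_add, map_add, map_add, hp, hq]
  | mul_X p s hp =>
    rw [map_mul, map_mul, map_mul, hp, aeval_X, eval_X]
    congr 1
    unfold sbst blk
    by_cases hs : s.1 = j
    · rw [dif_pos hs, dif_pos hs, eval_X]
    · rw [dif_neg hs, dif_neg hs, eval_C]

/-- the weights -/
def wgt (N : ℕ) (j : Fin c) (w' : Fin N → ℕ) : Fin (r j + 1 + N) → ℕ :=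
  Fin.append (fun _ : Fin (r j + 1) => 1) w'

theorem wh_sbst {k : Fin c → ℕ} {p : MvPolynomial (Co r) ℂ} (hp : FQ.IsHomog k p) (j : Fin c)
    (z : Co r → ℂ) (w' : Fin N → ℕ) :
    IsWeightedHomogeneous (wgt (r := r) N j w') (aeval (sbst N j z) p) (k j) := by
  classical
  rw [aeval_def, eval₂_eq']
  refine IsWeightedHomogeneous.sum _ _ _ fun I hI => ?_
  have h1 : ∀ s : Co r, IsWeightedHomogeneous (wgt (r := r) N j w') (sbst N j z s)
      (if s.1 = j then 1 else 0) := by
    intro s
    unfold sbst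
    by_cases hs : s.1 = j
    · rw [dif_pos hs, if_pos hs]
      have h2 := isWeightedHomogeneous_X ℂ (wgt (r := r) N j w')
        (Fin.castAdd N (Fin.cast (congrArg (fun j => r j + 1) hs) s.2))
      have h3 : wgt (r := r) N j w'
          (Fin.castAdd N (Fin.cast (congrArg (fun j => r j + 1) hs) s.2)) = 1 := by
        unfold wgt
        rw [Fin.append_left]
      rwa [h3] at h2
    · rw [dif_neg hs, if_neg hs]
      exact isWeightedHomogeneous_C _ _
  have h2 : IsWeightedHomogeneous (wgt (r := r) N j w') (∏ s : Co r, sbst N j z s ^ I s)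
      (∑ s : Co r, I s * (if s.1 = j then 1 else 0)) := by
    refine IsWeightedHomogeneous.prod _ _ _ fun s _ => ?_
    have h3 := (h1 s).pow (I s)
    rwa [smul_eq_mul] at h3
  have h3 := (isWeightedHomogeneous_C (wgt (r := r) N j w') (coeff I p)).mul h2
  have h4 : 0 + ∑ s : Co r, I s * (if s.1 = j then 1 else 0) = k j := by
    rw [zero_add, Fintype.sum_sigma, Finset.sum_eq_single j]
    · simp only [if_true, mul_one]
      exact hp I hI j
    · intro j' _ hj
      exact Finset.sum_eq_zero fun a _ => by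
        change I ⟨j', a⟩ * (if j' = j then 1 else 0) = 0
        rw [if_neg hj, mul_zero]
    · intro h
      exact absurd (Finset.mem_univ j) h
  rw [h4] at h3
  exact h3

/-- A polynomial of positive degree vanishes if the coordinates of the factor are zero. -/
theorem eval_zero_of_block {k : Fin c → ℕ} {p : MvPolynomial (Co r) ℂ} (hp : FQ.IsHomog k p)
    {j : Fin c} (hk : 0 < k j) {z : Co r → ℂ} (hz : ∀ a, z ⟨j, a⟩ = 0) : eval z p = 0 := by
  classical
  rw [eval_eq']
  refine Finset.sum_eq_zero fun I hI => ?_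
  have h1 := hp I hI j
  obtain ⟨a, ha⟩ : ∃ a, I ⟨j, a⟩ ≠ 0 := by
    by_contra hcon
    push Not at hcon
    rw [Finset.sum_eq_zero fun a _ => hcon a] at h1
    omega
  rw [Finset.prod_eq_zero (Finset.mem_univ (⟨j, a⟩ : Co r)) (by rw [hz, zero_pow ha]), mul_zero]

end Pool.Agent.H896.IG
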